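import Pool.Agent.U121.LC2.Split
import Pool.Agent.U121.LC.Main

/-!
U121/LC2 (helper121, MP_0430e4_lc): binary linear codes beyond the Gilbert-Varshamov bound are
rare at the scale `2 ^ (-c n²)`, with `c = η² / (20 log₂ (2 / δ))`.
-/

set_option autoImplicit false

namespace Pool.Agent.U121.LC2

open Finset Filter
open Pool.Agent.U121.LC (ball Unc PP CC numRad numDist numCodes numDist_le numRad_le choose_le_ball)
open Pool.Agent.Results.MP_0430e4_lc.ConstantWeightCriterion (H H_cont H_le_one H_eq H_eq'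
  pow_lower)
open Pool.Agent.U121.RS (choose_low ev_ge two_rpow_pos)

/-- the volume of a ball -/
lemma ball_le {p : ℝ} (hp0 : 0 < p) (hp : p ≤ 1 / 2) {n t : ℕ} (ht : (t : ℝ) ≤ p * n) :
    ((ball n t).card : ℝ) ≤ (2 : ℝ) ^ (H p * n) := by
  classical
  have h1 : ∑ x : Fin n → ZMod 2, ∏ i, (if x i ≠ 0 then p else 1 - p) = 1 := by
    have h := Finset.prod_univ_sum (fun _ : Fin n => (univ : Finset (ZMod 2)))
      (fun _ z => if z ≠ 0 then p else 1 - p)
    rw [Fintype.piFinset_univ] at h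
    rw [← h]
    apply Finset.prod_eq_one
    intro i _
    have : (univ : Finset (ZMod 2)) = {0, 1} := by decide
    rw [this, sum_pair (by decide), if_neg (by simp), if_pos (by decide)]
    ring
  have h2 : ∀ x ∈ ball n t, (2 : ℝ) ^ (-(H p * n)) ≤ ∏ i, (if x i ≠ 0 then p else 1 - p) := by
    intro x hx
    unfold ball at hx
    rw [mem_filter] at hx
    rw [Pool.Agent.Results.MP_0430e4_lc.ConstantWeightCriterion.prod_ite_eq]
    apply pow_lower hp0 hp
    · refine (card_le_univ _).trans ?_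
      rw [Fintype.card_fin]
    · have h3 : ((univ.filter fun i => x i ≠ 0).card : ℝ) ≤ t := by exact_mod_cast hx.2
      exact h3.trans ht
  have h3 : ((ball n t).card : ℝ) * (2 : ℝ) ^ (-(H p * n)) ≤ 1 := by
    rw [← nsmul_eq_mul, ← sum_const, ← h1]
    refine (sum_le_sum h2).trans ?_
    refine sum_le_sum_of_subset_of_nonneg (subset_univ _) fun x _ _ => prod_nonneg fun i _ => ?_
    split_ifs
    · exact hp0.le
    · linarith
  rw [Real.rpow_neg (by norm_num), ← div_eq_mul_inv, div_le_one (two_rpow_pos _)] at h3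
  exact h3

/-- the growth of the entropy -/
lemma H_diff {δ ρ : ℝ} (h0 : 0 < δ) (h1 : δ < 1 / 2) (hρ : 0 < ρ) (hρ' : ρ ≤ δ / 2) :
    H δ - H (δ - ρ) ≤ ρ * Real.logb 2 (2 / δ) := by
  have hlog : 0 < Real.log 2 := Real.log_pos (by norm_num)
  obtain ⟨c, hc, hc'⟩ := exists_hasDerivAt_eq_slope Real.binEntropy
    (fun p => Real.log (1 - p) - Real.log p) (show δ - ρ < δ by linarith)
    (Real.binEntropy_continuous.continuousOn)
    (fun x hx => Real.hasDerivAt_binEntropy (by have := hx.1; linarith) (by have := hx.2; linarith))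
  have hc1 := hc.1
  have hc2 := hc.2
  have e1 : Real.log (1 - c) ≤ 0 := Real.log_nonpos (by linarith) (by linarith)
  have e2 : Real.log (δ / 2) ≤ Real.log c := Real.log_le_log (by positivity) (by linarith)
  have e3 : Real.log (2 / δ) = - Real.log (δ / 2) := by
    rw [← Real.log_inv, inv_div]
  have e4 : Real.binEntropy δ - Real.binEntropy (δ - ρ) ≤ ρ * Real.log (2 / δ) := by
    have h3 : (Real.log (1 - c) - Real.log c) * ρ =
        Real.binEntropy δ - Real.binEntropy (δ - ρ) := by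
      rw [hc', show δ - (δ - ρ) = ρ by ring]
      field_simp
    rw [← h3, e3]
    have h4 : (Real.log (1 - c) - Real.log c) * ρ ≤ (-Real.log (δ / 2)) * ρ :=
      mul_le_mul_of_nonneg_right (by linarith) hρ.le
    linarith
  rw [H_eq' δ, H_eq' (δ - ρ), ← sub_div, div_le_iff₀ hlog]
  unfold Real.logb
  rw [mul_assoc, div_mul_cancel₀ _ hlog.ne']
  exact e4

lemma H_le {δ : ℝ} (h0 : 0 < δ) (h1 : δ < 1 / 2) : H δ ≤ 2 * δ * Real.logb 2 (2 / δ) := by
  have hlog : 0 < Real.log 2 := Real.log_pos (by norm_num)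
  rw [H_eq', div_le_iff₀ hlog]
  unfold Real.logb
  rw [mul_assoc, div_mul_cancel₀ _ hlog.ne', Real.log_div (by norm_num) h0.ne']
  unfold Real.binEntropy
  rw [Real.log_inv, Real.log_inv]
  have e1 : -Real.log (1 - δ) ≤ (1 - δ)⁻¹ - 1 := by
    have := Real.log_le_sub_one_of_pos (show 0 < (1 - δ)⁻¹ by
      rw [inv_pos]; linarith)
    rw [Real.log_inv] at this
    exact this
  have e2 : (1 - δ) * (-Real.log (1 - δ)) ≤ δ := by
    calc (1 - δ) * (-Real.log (1 - δ)) ≤ (1 - δ) * ((1 - δ)⁻¹ - 1) :=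
          mul_le_mul_of_nonneg_left e1 (by linarith)
      _ = δ := by
        have : 1 - δ ≠ 0 := by linarith
        field_simp
        ring
  have e3 := Real.log_two_gt_d9
  have e4 : Real.log δ < 0 := Real.log_neg h0 (by linarith)
  have e5 : 0 ≤ δ * (-Real.log δ) := mul_nonneg h0.le (by linarith)
  have e6 : δ * (1 / 2) ≤ δ * Real.log 2 := mul_le_mul_of_nonneg_left (by linarith) h0.le
  linarith

lemma L_ge {δ : ℝ} (h0 : 0 < δ) (h1 : δ < 1 / 2) : 2 ≤ Real.logb 2 (2 / δ) := by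
  rw [Real.le_logb_iff_rpow_le (by norm_num) (by positivity)]
  rw [show (2 : ℝ) ^ (2 : ℝ) = 4 by
    rw [show (2 : ℝ) = ((2 : ℕ) : ℝ) by norm_num, Real.rpow_natCast]; norm_num]
  rw [le_div_iff₀ h0]
  linarith

/-- **Linear codes beyond the Gilbert-Varshamov bound are rare.** -/
theorem rare {δ η : ℝ} (h0 : 0 < δ) (h1 : δ < 1 / 2) (hη : 0 < η) :
    ∀ᶠ n : ℕ in atTop, ∀ k : ℕ, k ≤ n → (1 - H δ + η) * n ≤ k →
      (numRad n k (δ * n) : ℝ) + numDist n k (δ * n) ≤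
      (2 : ℝ) ^ (-(η ^ 2 / (20 * Real.logb 2 (2 / δ)) * (n : ℝ) ^ 2)) * numCodes n k := by
  by_cases hηH : η ≤ H δ
  swap
  · filter_upwards [eventually_ge_atTop 1] with n hn k hkn hk
    push Not at hηH
    have h2 : (1 : ℝ) ≤ n := by exact_mod_cast hn
    have h3 : (k : ℝ) ≤ n := by exact_mod_cast hkn
    have h4 : 0 < (η - H δ) * n := mul_pos (by linarith) (by linarith)
    linarith
  obtain ⟨L, hL⟩ : ∃ L : ℝ, L = Real.logb 2 (2 / δ) := ⟨_, rfl⟩
  have hL2 : 2 ≤ L := by rw [hL]; exact L_ge h0 h1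
  have hL0 : 0 < L := by linarith
  obtain ⟨ρ, hρ⟩ : ∃ ρ : ℝ, ρ = η / (6 * L) := ⟨_, rfl⟩
  have hρ0 : 0 < ρ := by rw [hρ]; positivity
  have hρL : ρ * L = η / 6 := by rw [hρ]; field_simp
  have hρδ : ρ ≤ δ / 3 := by
    rw [hρ, div_le_iff₀ (by positivity)]
    have := H_le h0 h1
    rw [← hL] at this
    linarith
  obtain ⟨ε, hε⟩ : ∃ ε : ℝ, ε = η / 240 := ⟨_, rfl⟩
  have hε0 : 0 < ε := by rw [hε]; positivity
  obtain ⟨η₁, hη₁, ev1⟩ := choose_low (x := δ - ρ) (by linarith) (by linarith) hε0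
  have hdiff : H δ - H (δ - ρ) ≤ η / 6 := by
    have := H_diff h0 h1 hρ0 (by linarith)
    rw [← hL, hρL] at this
    exact this
  have hH1 := H_le_one δ
  obtain ⟨c', hc'⟩ : ∃ c' : ℝ, c' = η ^ 2 / (19 * L) := ⟨_, rfl⟩
  have hc0 : 0 < c' := by rw [hc']; positivity
  rw [← hL]
  obtain ⟨c, hc⟩ : ∃ c : ℝ, c = η ^ 2 / (20 * L) := ⟨_, rfl⟩
  rw [← hc]
  have hcc : c + η ^ 2 / (380 * L) = c' := by
    rw [hc, hc']
    field_simp
    norm_num
  filter_upwards [ev1, ev_ge (2 / η₁), ev_ge (6 / δ), ev_ge (12 / η), ev_ge (800 * 2 / η ^ 2),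
    ev_ge (220 * L / η), ev_ge (4 * 380 * L / η ^ 2),
    eventually_ge_atTop 1] with n g1 g2 g3 g4 g5 g6 g7 g8 k hkn hk
  have hnR : (1 : ℝ) ≤ n := by exact_mod_cast g8
  have hn0 : (0 : ℝ) < n := by linarith
  rw [div_le_iff₀ hη₁] at g2
  rw [div_le_iff₀ h0] at g3
  rw [div_le_iff₀ hη] at g4
  rw [div_le_iff₀ (by positivity)] at g5
  rw [div_le_iff₀ hη] at g6
  rw [div_le_iff₀ (by positivity)] at g7
  have hkR : (k : ℝ) ≤ n := by exact_mod_cast hkn
  -- parameters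
  obtain ⟨d, hd⟩ : ∃ d : ℕ, d = ⌈δ * n⌉₊ := ⟨_, rfl⟩
  have hd1 : δ * n ≤ d := by rw [hd]; exact Nat.le_ceil _
  have hd2 : (d : ℝ) < δ * n + 1 := by
    rw [hd]
    exact Nat.ceil_lt_add_one (by positivity)
  obtain ⟨t, ht⟩ : ∃ t : ℕ, d = t + 1 := by
    refine ⟨d - 1, ?_⟩
    have : 0 < d := by
      have : (0 : ℝ) < d := by linarith
      exact_mod_cast this
    omega
  have htR : (d : ℝ) = t + 1 := by rw [ht]; push_cast; rfl
  obtain ⟨r, hr⟩ : ∃ r : ℕ, r = ⌊ρ * n⌋₊ := ⟨_, rfl⟩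
  have hr1 : (r : ℝ) ≤ ρ * n := by rw [hr]; exact Nat.floor_le (by positivity)
  have hr2 : ρ * n < r + 1 := by rw [hr]; exact Nat.lt_floor_add_one _
  have hrt : r ≤ t := by
    have h2 : ρ * n ≤ δ / 3 * n := mul_le_mul_of_nonneg_right hρδ hn0.le
    have : (r : ℝ) ≤ t := by linarith
    exact_mod_cast this
  obtain ⟨k₁, hk₁⟩ : ∃ k₁ : ℕ, k₁ = ⌈(1 - H δ + 5 * η / 6) * n⌉₊ := ⟨_, rfl⟩
  have hk1a : (1 - H δ + 5 * η / 6) * n ≤ k₁ := by rw [hk₁]; exact Nat.le_ceil _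
  have hk1b : (k₁ : ℝ) < (1 - H δ + 5 * η / 6) * n + 1 := by
    rw [hk₁]
    exact Nat.ceil_lt_add_one (by apply mul_nonneg _ hn0.le; linarith)
  have hk1k : k₁ ≤ k := by
    have h2 : (k₁ : ℝ) < k + 1 := by linarith
    have h3 : k₁ < k + 1 := by exact_mod_cast h2
    omega
  obtain ⟨k₂, hk₂⟩ : ∃ k₂ : ℕ, k = k₁ + k₂ := ⟨k - k₁, by omega⟩
  have hk2 : η / 6 * n - 1 ≤ k₂ := by
    have h2 : (k : ℝ) = k₁ + k₂ := by rw [hk₂]; push_cast; rfl
    rw [h2] at hk
    linarith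
  -- the volumes
  obtain ⟨V, hV⟩ : ∃ V : ℝ, V = ((ball n t).card : ℝ) := ⟨_, rfl⟩
  obtain ⟨V', hV'⟩ : ∃ V' : ℝ, V' = ((ball n (t - r)).card : ℝ) := ⟨_, rfl⟩
  have hVle : V ≤ (2 : ℝ) ^ (H δ * n) := by
    rw [hV]
    exact ball_le h0 h1.le (by linarith)
  have hV0 : 0 ≤ V := by rw [hV]; positivity
  have hV'ge : (2 : ℝ) ^ ((H (δ - ρ) - ε) * n) ≤ V' := by
    have h2 : (2 : ℝ) ^ ((H (δ - ρ) - ε) * n) ≤ n.choose (t - r) := by
      apply g1
      rw [Nat.cast_sub hrt, abs_le]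
      constructor <;> linarith
    refine h2.trans ?_
    rw [hV']
    exact_mod_cast choose_le_ball n (t - r)
  obtain ⟨τ, hτ⟩ : ∃ τ : ℝ, τ = (2 : ℝ) ^ (-(η / 6 * n)) := ⟨_, rfl⟩
  have hτ0 : 0 < τ := by rw [hτ]; exact two_rpow_pos _
  -- the bad matrices
  obtain ⟨E, hE⟩ : ∃ E : ℝ, E = (η / 3 - 2 * ε) * n := ⟨_, rfl⟩
  have hE0 : 0 ≤ E := by
    rw [hE, hε]
    have : 0 ≤ η / 3 - 2 * (η / 240) := by linarith
    positivity
  have hstep : 2 ^ n * V * (2 : ℝ) ^ E ≤ τ * V' ^ 2 * 2 ^ k₁ := by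
    calc 2 ^ n * V * (2 : ℝ) ^ E ≤ (2 : ℝ) ^ (n : ℝ) * (2 : ℝ) ^ (H δ * n) * (2 : ℝ) ^ E := by
          rw [Real.rpow_natCast]
          apply mul_le_mul_of_nonneg_right _ (two_rpow_pos _).le
          exact mul_le_mul_of_nonneg_left hVle (by positivity)
      _ = (2 : ℝ) ^ ((n : ℝ) + H δ * n + E) := by
          rw [Real.rpow_add (by norm_num), Real.rpow_add (by norm_num)]
      _ ≤ (2 : ℝ) ^ (-(η / 6 * n) + ((H (δ - ρ) - ε) * n + (H (δ - ρ) - ε) * n) + k₁) := by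
          apply Real.rpow_le_rpow_of_exponent_le (by norm_num)
          rw [hE]
          have h2 : (H δ - H (δ - ρ)) * n ≤ η / 6 * n := mul_le_mul_of_nonneg_right hdiff hn0.le
          linarith
      _ = τ * ((2 : ℝ) ^ ((H (δ - ρ) - ε) * n)) ^ 2 * 2 ^ k₁ := by
          rw [Real.rpow_add (by norm_num), Real.rpow_add (by norm_num),
            Real.rpow_add (by norm_num), Real.rpow_natCast, ← hτ]
          ring
      _ ≤ _ := by
          apply mul_le_mul_of_nonneg_right _ (by positivity)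
          apply mul_le_mul_of_nonneg_left _ hτ0.le
          exact pow_le_pow_left₀ (two_rpow_pos _).le hV'ge 2
  classical
  obtain ⟨Bd, hBd⟩ : ∃ Bd : ℝ, Bd = ((univ.filter fun G : Fin k₁ → (Fin n → ZMod 2) =>
      τ * 2 ^ n ≤ (Unc G d).card).card : ℝ) := ⟨_, rfl⟩
  have hBd0 : 0 ≤ Bd := by rw [hBd]; positivity
  have hbad : Bd * (τ * V' ^ 2) ^ r * 2 ^ (r * k₁) ≤ (2 ^ n * V) ^ r * 2 ^ (n * k₁) := by
    have := bad_le (n := n) (k := k₁) hrt hτ0.le
    rw [← hV, ← hV'] at this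
    rw [hBd, ht]
    convert this using 2
  obtain ⟨β, hβ⟩ : ∃ β : ℝ, β = (((2 : ℝ) ^ E) ^ r)⁻¹ := ⟨_, rfl⟩
  have hV'0 : 0 < V' := (two_rpow_pos _).trans_le hV'ge
  have hPE : 0 < (2 : ℝ) ^ E := two_rpow_pos _
  have hBd1 : Bd ≤ β * 2 ^ (n * k₁) := by
    have h2 : Bd * ((2 : ℝ) ^ E) ^ r * (2 ^ n * V) ^ r ≤ 2 ^ (n * k₁) * (2 ^ n * V) ^ r := by
      calc Bd * ((2 : ℝ) ^ E) ^ r * (2 ^ n * V) ^ r = Bd * (2 ^ n * V * (2 : ℝ) ^ E) ^ r := by
            rw [mul_pow (2 ^ n * V)]; ring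
        _ ≤ Bd * (τ * V' ^ 2 * 2 ^ k₁) ^ r := by
            apply mul_le_mul_of_nonneg_left _ hBd0
            exact pow_le_pow_left₀ (by positivity) hstep r
        _ = Bd * (τ * V' ^ 2) ^ r * 2 ^ (r * k₁) := by
            rw [mul_pow (τ * V' ^ 2), ← pow_mul, mul_comm k₁ r]; ring
        _ ≤ _ := by rw [mul_comm (2 ^ (n * k₁))]; exact hbad
    have hVpos : 0 < V := by
      have : V' ≤ V := by
        rw [hV, hV']
        exact_mod_cast ball_mono (by omega)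
      linarith
    have h3 := le_of_mul_le_mul_right h2 (by positivity)
    rw [hβ, ← div_eq_inv_mul, le_div_iff₀ (by positivity)]
    exact h3
  have hβ0 : 0 ≤ β := by rw [hβ]; positivity
  have hβ1 : β ≤ (2 : ℝ) ^ (-(c' * (n : ℝ) ^ 2)) := by
    rw [hβ, ← Real.rpow_natCast, ← Real.rpow_mul (by norm_num), ← Real.rpow_neg (by norm_num)]
    apply Real.rpow_le_rpow_of_exponent_le (by norm_num)
    have h2 : E * r ≥ E * (ρ * n - 1) := by
      apply mul_le_mul_of_nonneg_left _ hE0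
      linarith
    have h3 : E * (ρ * n - 1) ≥ c' * (n : ℝ) ^ 2 := by
      have e1 : E * (ρ * n) = η ^ 2 / L * (39 / 720) * (n : ℝ) ^ 2 := by
        rw [hE, hε, hρ]
        field_simp
        norm_num
      have e2 : E ≤ η / 3 * n := by
        rw [hE]
        apply mul_le_mul_of_nonneg_right _ hn0.le
        linarith
      have e3 : c' * (n : ℝ) ^ 2 = η ^ 2 / L * (1 / 19) * (n : ℝ) ^ 2 := by
        rw [hc']
        field_simp
      have e4 : η / 3 * n ≤ η ^ 2 / L * (39 / 720 - 1 / 19) * (n : ℝ) ^ 2 := by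
        have e5 : η ≤ η ^ 2 / L * (1 / 220) * n := by
          rw [div_mul_eq_mul_div, div_mul_eq_mul_div, le_div_iff₀ hL0]
          have := mul_le_mul_of_nonneg_left g6 hη.le
          linarith
        have e6 : η / 3 * n ≤ η ^ 2 / L * (1 / 660) * (n : ℝ) ^ 2 := by
          calc η / 3 * n ≤ (η ^ 2 / L * (1 / 220) * n) / 3 * n := by
                apply mul_le_mul_of_nonneg_right _ hn0.le
                linarith
            _ = _ := by ring
        refine e6.trans ?_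
        apply mul_le_mul_of_nonneg_right _ (by positivity)
        apply mul_le_mul_of_nonneg_left _ (by positivity)
        norm_num
      rw [mul_sub, e1, e3, mul_one]
      have e7 : η ^ 2 / L * (39 / 720 - 1 / 19) * (n : ℝ) ^ 2 =
        η ^ 2 / L * (39 / 720) * (n : ℝ) ^ 2 - η ^ 2 / L * (1 / 19) * (n : ℝ) ^ 2 := by ring
      linarith
    linarith
  -- the good matrices
  have hgood : 2 ^ n * τ ^ k₂ ≤ (2 : ℝ) ^ (-(c' * (n : ℝ) ^ 2)) := by
    calc 2 ^ n * τ ^ k₂ = (2 : ℝ) ^ ((n : ℝ) + -(η / 6 * n) * k₂) := by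
          rw [Real.rpow_add (by norm_num), Real.rpow_natCast, Real.rpow_mul (by norm_num), ← hτ,
            Real.rpow_natCast]
      _ ≤ _ := by
          apply Real.rpow_le_rpow_of_exponent_le (by norm_num)
          have h2 : η / 6 * n * (η / 6 * n - 1) ≤ η / 6 * n * k₂ :=
            mul_le_mul_of_nonneg_left hk2 (by positivity)
          have h3 : c' ≤ η ^ 2 / 38 := by
            rw [hc']
            apply div_le_div_of_nonneg_left (by positivity) (by norm_num)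
            linarith
          have h4 : c' * (n : ℝ) ^ 2 ≤ η ^ 2 / 38 * (n : ℝ) ^ 2 :=
            mul_le_mul_of_nonneg_right h3 (by positivity)
          have h5 : (n : ℝ) * (1 + η / 6) ≤ η ^ 2 * (1 / 36 - 1 / 38) * (n : ℝ) ^ 2 := by
            have hη1 : η ≤ 1 := hηH.trans hH1
            have h6 : (1 + η / 6) ≤ η ^ 2 * (1 / 36 - 1 / 38) * n := by
              have : η ^ 2 * (1 / 36 - 1 / 38) * n = (n * η ^ 2) * (1 / 36 - 1 / 38) := by ring
              rw [this]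
              linarith
            calc (n : ℝ) * (1 + η / 6) ≤ n * (η ^ 2 * (1 / 36 - 1 / 38) * n) :=
                  mul_le_mul_of_nonneg_left h6 hn0.le
              _ = _ := by ring
          linarith
  have hgood2 : τ ^ k₂ ≤ (2 : ℝ) ^ (-(c' * (n : ℝ) ^ 2)) := by
    refine le_trans ?_ hgood
    have h2 : (1 : ℝ) ≤ 2 ^ n := one_le_pow₀ (by norm_num)
    exact le_mul_of_one_le_left (pow_nonneg hτ0.le k₂) h2
  have hP := PP_le (n := n) (k₁ := k₁) (k₂ := k₂) (d := d) (τ := τ) (β := β) hτ0.le (by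
    rw [← hBd]; exact hBd1)
  have hC := CC_le (n := n) (k₁ := k₁) (k₂ := k₂) (d := d) (τ := τ) (β := β) hτ0.le (by
    rw [← hBd]; exact hBd1)
  rw [← hk₂] at hP hC
  have hP2 : ((PP n k d).card : ℝ) ≤ (2 * (2 : ℝ) ^ (-(c' * (n : ℝ) ^ 2))) * 2 ^ (n * k) := by
    refine hP.trans (mul_le_mul_of_nonneg_right ?_ (by positivity))
    linarith
  have hC2 : ((CC n k d).card : ℝ) ≤ (2 * (2 : ℝ) ^ (-(c' * (n : ℝ) ^ 2))) * 2 ^ (n * k) := by
    refine hC.trans (mul_le_mul_of_nonneg_right ?_ (by positivity))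
    linarith
  have hfin := numDist_le hkn hd2 (p := 2 * (2 : ℝ) ^ (-(c' * (n : ℝ) ^ 2))) (by positivity) hP2
  have hfin2 := numRad_le hkn hd2 (p := 2 * (2 : ℝ) ^ (-(c' * (n : ℝ) ^ 2))) (by positivity) hC2
  have hsuf : 16 * (2 : ℝ) ^ (-(c' * (n : ℝ) ^ 2)) ≤ (2 : ℝ) ^ (-(c * (n : ℝ) ^ 2)) := by
    calc 16 * (2 : ℝ) ^ (-(c' * (n : ℝ) ^ 2)) = (2 : ℝ) ^ (4 : ℝ) *
          (2 : ℝ) ^ (-(c' * (n : ℝ) ^ 2)) := by
          rw [show (2 : ℝ) ^ (4 : ℝ) = 16 by
            rw [show (4 : ℝ) = ((4 : ℕ) : ℝ) by norm_num, Real.rpow_natCast]; norm_num]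
      _ = (2 : ℝ) ^ (4 + (-(c' * (n : ℝ) ^ 2))) := by rw [Real.rpow_add (by norm_num)]
      _ ≤ _ := by
          apply Real.rpow_le_rpow_of_exponent_le (by norm_num)
          have h2 : c' * (n : ℝ) ^ 2 = c * (n : ℝ) ^ 2 + η ^ 2 / (380 * L) * (n : ℝ) ^ 2 := by
            rw [← hcc]; ring
          have h3 : 4 ≤ η ^ 2 / (380 * L) * (n : ℝ) ^ 2 := by
            rw [div_mul_eq_mul_div, le_div_iff₀ (by positivity)]
            have h4 : (n : ℝ) * η ^ 2 * 1 ≤ n * η ^ 2 * n :=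
              mul_le_mul_of_nonneg_left hnR (by positivity)
            linarith
          linarith
  calc (numRad n k (δ * n) : ℝ) + numDist n k (δ * n) ≤
        16 * (2 : ℝ) ^ (-(c' * (n : ℝ) ^ 2)) * numCodes n k := by linarith
    _ ≤ _ := mul_le_mul_of_nonneg_right hsuf (by positivity)

end Pool.Agent.U121.LC2
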