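import Pool.Agent.U121.LC2.Fou

/-!
U121/LC2 (helper121, MP_0430e4_lc): the number of words far from a code, by the second moment in the
cosets of the dual code of a few dual words.
-/

set_option autoImplicit false
set_option linter.unusedSectionVars false

namespace Pool.Agent.U121.LC2

open Finset Pool.Agent.U121.LC

open scoped Classical

lemma one_one : (1 : ZMod 2) + 1 = 0 := by decide

/-- vectors which are supported in the support of `x` -/
noncomputable def sup {n : ℕ} (x : Fin n → ZMod 2) : Finset (Fin n → ZMod 2) :=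
  Fintype.piFinset fun i => if x i = 0 then {0} else univ

lemma card_sup {n : ℕ} (x : Fin n → ZMod 2) : (sup x).card = 2 ^ hammingNorm x := by
  unfold sup
  rw [Fintype.card_piFinset]
  have h1 : ∀ i, (if x i = 0 then ({0} : Finset (ZMod 2)) else univ).card =
      if x i = 0 then 1 else 2 := by
    intro i
    split_ifs
    · rfl
    · rw [card_univ, ZMod.card]
  rw [prod_congr rfl fun i _ => h1 i, prod_ite, prod_const_one, one_mul, prod_const]
  congr 1

/-- every coset of the dual code of `r` words has a word of weight at most `r` -/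
lemma cover {n r : ℕ} (W : Fin r → (Fin n → ZMod 2)) : ∀ (m : ℕ) (x : Fin n → ZMod 2),
    hammingNorm x ≤ m → ∃ z, hammingNorm z ≤ r ∧ ∀ l, dt (W l) z = dt (W l) x := by
  intro m
  induction m with
  | zero =>
    intro x hx
    exact ⟨x, hx.trans (Nat.zero_le _), fun l => rfl⟩
  | succ m ih =>
    intro x hx
    by_cases hr : hammingNorm x ≤ r
    · exact ⟨x, hr, fun l => rfl⟩
    · push Not at hr
      have h1 : (univ : Finset (Fin r → ZMod 2)).card < (sup x).card := by
        rw [card_sup, card_univ, Fintype.card_fun, ZMod.card, Fintype.card_fin]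
        exact Nat.pow_lt_pow_right (by norm_num) hr
      obtain ⟨v1, hv1, v2, hv2, hne, heq⟩ := exists_ne_map_eq_of_card_lt_of_maps_to h1
        (f := fun v => fun l => dt (W l) v) (fun _ _ => mem_univ _)
      have hv : ∀ i, x i = 0 → (v1 + v2) i = 0 := by
        intro i hi
        unfold sup at hv1 hv2
        rw [Fintype.mem_piFinset] at hv1 hv2
        have a1 := hv1 i
        have a2 := hv2 i
        rw [if_pos hi, mem_singleton] at a1 a2
        rw [Pi.add_apply, a1, a2, add_zero]
      obtain ⟨i0, hi0⟩ : ∃ i, (v1 + v2) i ≠ 0 := by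
        by_contra hc
        push Not at hc
        exact hne ((add_self_iff v1 v2).1 (funext hc))
      have hx0 : x i0 ≠ 0 := fun h => hi0 (hv i0 h)
      have hlt : hammingNorm (x + (v1 + v2)) < hammingNorm x := by
        unfold hammingNorm
        apply card_lt_card
        rw [ssubset_iff_of_subset]
        · refine ⟨i0, mem_filter.2 ⟨mem_univ _, hx0⟩, ?_⟩
          rw [mem_filter]
          rintro ⟨_, h⟩
          apply h
          have a1 : x i0 = 1 := (zmod2 (x i0)).resolve_left hx0
          have a2 : (v1 + v2) i0 = 1 := (zmod2 _).resolve_left hi0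
          show x i0 + (v1 + v2) i0 = 0
          rw [a1, a2]
          exact one_one
        · intro i hi
          rw [mem_filter] at hi ⊢
          refine ⟨mem_univ _, fun h => hi.2 ?_⟩
          rw [Pi.add_apply, h, hv i h, add_zero]
      obtain ⟨z, hz1, hz2⟩ := ih (x + (v1 + v2)) (by omega)
      refine ⟨z, hz1, fun l => ?_⟩
      have hl : dt (W l) v1 = dt (W l) v2 := congrFun heq l
      rw [hz2, dt_add, dt_add, hl]
      have : dt (W l) v2 + dt (W l) v2 = 0 := by
        rcases zmod2 (dt (W l) v2) with h | h <;> rw [h] <;> decide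
      rw [this, add_zero]

lemma norm_add_le {n : ℕ} (x y : Fin n → ZMod 2) :
    hammingNorm (x + y) ≤ hammingNorm x + hammingNorm y := by
  unfold hammingNorm
  refine le_trans (card_le_card ?_) (card_union_le _ _)
  intro i hi
  rw [mem_union, mem_filter, mem_filter]
  rw [mem_filter] at hi
  by_cases h : x i = 0
  · right
    refine ⟨mem_univ _, fun h' => hi.2 ?_⟩
    rw [Pi.add_apply, h, h', add_zero]
  · left
    exact ⟨mem_univ _, h⟩

/-- the part of a ball in a coset -/
lemma ball_coset {n r t : ℕ} (hr : r ≤ t) (W : Fin r → (Fin n → ZMod 2)) (x : Fin n → ZMod 2) :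
    (ball n (t - r)).card ≤
      2 ^ r * ((ball n t).filter fun b => ∀ l, dt (W l) (x + b) = 0).card := by
  have h1 := card_eq_sum_card_fiberwise (s := ball n (t - r)) (t := (univ :
    Finset (Fin r → ZMod 2))) (f := fun b => fun l => dt (W l) b) (fun _ _ => mem_univ _)
  have h2 : ∀ y ∈ (univ : Finset (Fin r → ZMod 2)),
      ((ball n (t - r)).filter fun b => (fun l => dt (W l) b) = y).card ≤
      ((ball n t).filter fun b => ∀ l, dt (W l) (x + b) = 0).card := by
    intro y _
    rcases Finset.eq_empty_or_nonempty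
      ((ball n (t - r)).filter fun b => (fun l => dt (W l) b) = y) with he | ⟨b0, hb0⟩
    · rw [he, card_empty]
      exact Nat.zero_le _
    · rw [mem_filter] at hb0
      obtain ⟨z, hz1, hz2⟩ := cover W _ (x + b0) le_rfl
      refine card_le_card_of_injOn (fun b => b + z) ?_ ?_
      · intro b hb
        rw [mem_coe, mem_filter] at hb
        rw [mem_coe, mem_filter]
        have hb1 := hb.1
        unfold ball at hb1 ⊢
        rw [mem_filter] at hb1 ⊢
        refine ⟨⟨mem_univ _, ?_⟩, fun l => ?_⟩
        · have := norm_add_le b z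
          have h3 := hb1.2
          show hammingNorm (b + z) ≤ t
          omega
        · have e1 : dt (W l) b = y l := congrFun hb.2 l
          have e2 : dt (W l) b0 = y l := congrFun hb0.2 l
          rw [dt_add, dt_add, hz2, dt_add, e1, e2]
          rcases zmod2 (dt (W l) x) with h | h <;> rcases zmod2 (y l) with h' | h' <;>
            rw [h, h'] <;> decide
      · intro b _ b' _ h
        exact add_right_cancel h
  rw [h1]
  refine (sum_le_sum h2).trans ?_
  rw [sum_const, smul_eq_mul, card_univ, Fintype.card_fun, ZMod.card, Fintype.card_fin]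

lemma mem_span_iff {n r : ℕ} (W : Fin r → (Fin n → ZMod 2)) (w : Fin n → ZMod 2) :
    w ∈ Submodule.span (ZMod 2) (Set.range W) ↔ w ∈ univ.image (fun a => ev W a) := by
  rw [← Fintype.range_linearCombination (ZMod 2) (v := W), mem_image]
  constructor
  · rintro ⟨a, ha⟩
    exact ⟨a, mem_univ _, ha⟩
  · rintro ⟨a, _, ha⟩
    exact ⟨a, ha⟩

lemma ev_inj {n r : ℕ} {W : Fin r → (Fin n → ZMod 2)} (hW : LinearIndependent (ZMod 2) W) :
    Function.Injective fun a => ev W a :=
  linearIndependent_iff_injective_fintypeLinearCombination.1 hW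

lemma ev_DD {n r k : ℕ} {W : Fin r → (Fin n → ZMod 2)} {G : Fin k → (Fin n → ZMod 2)}
    (hW : ∀ l, W l ∈ DD G) (a : Fin r → ZMod 2) : ev W a ∈ DD G := by
  unfold DD
  rw [mem_filter]
  refine ⟨mem_univ _, fun j => ?_⟩
  rw [dt_comm, dt_ev]
  have : (fun l => dt (G j) (W l)) = 0 := by
    funext l
    rw [dt_comm]
    have := hW l
    unfold DD at this
    exact (mem_filter.1 this).2 j
  rw [this]
  unfold dt
  simp

/-- **Second moment in the cosets.** -/
theorem cheb {n k r t : ℕ} (hr : r ≤ t) (G : Fin k → (Fin n → ZMod 2))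
    (W : Fin r → (Fin n → ZMod 2)) (hW : LinearIndependent (ZMod 2) W) (hWD : ∀ l, W l ∈ DD G) :
    ((Unc G (t + 1)).card : ℝ) * ((ball n (t - r)).card : ℝ) ^ 2 ≤
      2 ^ n * ∑ w ∈ (DD G).filter (fun w => w ∉ Submodule.span (ZMod 2) (Set.range W)),
        KK (ball n t) w ^ 2 := by
  obtain ⟨S, hS⟩ : ∃ S : Finset (Fin n → ZMod 2), S = univ.image (fun a => ev W a) := ⟨_, rfl⟩
  obtain ⟨N, hN⟩ : ∃ N : (Fin n → ZMod 2) → ℝ, N = fun x => (XX G (ball n t) x : ℝ) := ⟨_, rfl⟩
  have hp : (0 : ℝ) < 2 ^ n := by positivity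
  have hk : (0 : ℝ) < 2 ^ k := by positivity
  have hhat : ∀ w, hat N w = if w ∈ DD G then (2 : ℝ) ^ k * KK (ball n t) w else 0 := by
    intro w
    rw [hN]
    exact hat_XX G (ball n t) w
  -- the conditional mean
  have hmean : ∀ x, ∑ w ∈ S, sg (dt w x) * hat N w =
      2 ^ k * (2 ^ r * ((ball n t).filter fun b => ∀ l, dt (W l) (x + b) = 0).card) := by
    intro x
    rw [hS, sum_image fun a _ b _ h => ev_inj hW h]
    have h1 : ∀ a, sg (dt (ev W a) x) * hat N (ev W a) =
        2 ^ k * ∑ b ∈ ball n t, sg (dt (fun l => dt (x + b) (W l)) a) := by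
      intro a
      rw [hhat, if_pos (ev_DD hWD a)]
      unfold KK
      rw [mul_left_comm, mul_sum]
      congr 1
      refine sum_congr rfl fun b _ => ?_
      rw [← sg_add, ← dt_add, dt_comm, dt_ev]
    rw [sum_congr rfl fun a _ => h1 a, ← mul_sum, sum_comm]
    congr 1
    rw [sum_congr rfl fun b _ => sum_sg _, ← sum_filter, sum_const, nsmul_eq_mul, mul_comm]
    congr 2
    congr 1
    ext b
    rw [mem_filter, mem_filter]
    constructor
    · rintro ⟨h2, h3⟩
      refine ⟨h2, fun l => ?_⟩
      rw [dt_comm]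
      exact congrFun h3 l
    · rintro ⟨h2, h3⟩
      refine ⟨h2, funext fun l => ?_⟩
      rw [dt_comm]
      exact h3 l
  have hlow : ∀ x, (2 : ℝ) ^ k * (ball n (t - r)).card ≤ ∑ w ∈ S, sg (dt w x) * hat N w := by
    intro x
    rw [hmean]
    apply mul_le_mul_of_nonneg_left _ hk.le
    exact_mod_cast ball_coset hr W x
  have hpar := parseval N S
  have h1 : ((Unc G (t + 1)).card : ℝ) * ((2 ^ n)⁻¹ * (2 ^ k * (ball n (t - r)).card)) ^ 2 ≤
      ∑ x, (N x - (2 ^ n)⁻¹ * ∑ w ∈ S, sg (dt w x) * hat N w) ^ 2 := by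
    calc _ = ∑ _x ∈ Unc G (t + 1), ((2 ^ n)⁻¹ * ((2 : ℝ) ^ k * (ball n (t - r)).card)) ^ 2 := by
          rw [sum_const, nsmul_eq_mul]
      _ ≤ ∑ x ∈ Unc G (t + 1), (N x - (2 ^ n)⁻¹ * ∑ w ∈ S, sg (dt w x) * hat N w) ^ 2 := by
          refine sum_le_sum fun x hx => ?_
          have hNx : N x = 0 := by
            rw [hN]
            show ((XX G (ball n t) x : ℕ) : ℝ) = 0
            unfold XX
            rw [Nat.cast_eq_zero, card_eq_zero, filter_eq_empty_iff]
            intro u _ hu
            unfold ball at hu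
            have h3 := (mem_filter.1 hu).2
            unfold Unc at hx
            have h4 := (mem_filter.1 hx).2 u
            omega
          rw [hNx, zero_sub, neg_sq]
          apply pow_le_pow_left₀ (by positivity)
          exact mul_le_mul_of_nonneg_left (hlow x) (by positivity)
      _ ≤ _ := sum_le_sum_of_subset_of_nonneg (subset_univ _) fun x _ _ => sq_nonneg _
  rw [hpar] at h1
  have h2 : ∑ w ∈ univ.filter (fun w => w ∉ S), hat N w ^ 2 =
      (2 ^ k) ^ 2 * ∑ w ∈ (DD G).filter (fun w => w ∉ Submodule.span (ZMod 2) (Set.range W)),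
        KK (ball n t) w ^ 2 := by
    have e1 : (DD G).filter (fun w => w ∉ Submodule.span (ZMod 2) (Set.range W)) =
        (univ.filter (fun w => w ∉ S)).filter (fun w => w ∈ DD G) := by
      ext w
      simp only [mem_filter, mem_univ, true_and, mem_span_iff, hS]
      tauto
    have e2 : ∑ w ∈ (univ.filter (fun w => w ∉ S)).filter (fun w => w ∈ DD G),
        KK (ball n t) w ^ 2 = ∑ w ∈ univ.filter (fun w => w ∉ S),
        if w ∈ DD G then KK (ball n t) w ^ 2 else 0 := sum_filter _ _
    rw [e1, e2, mul_sum]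
    refine sum_congr rfl fun w _ => ?_
    rw [hhat]
    split_ifs
    · ring
    · norm_num
  rw [h2] at h1
  have h3 : ((Unc G (t + 1)).card : ℝ) * ((ball n (t - r)).card : ℝ) ^ 2 *
      (((2 : ℝ) ^ k) ^ 2 * ((2 ^ n)⁻¹) ^ 2) ≤ (2 ^ n * ∑ w ∈ (DD G).filter (fun w => w ∉
        Submodule.span (ZMod 2) (Set.range W)), KK (ball n t) w ^ 2) *
        (((2 : ℝ) ^ k) ^ 2 * ((2 ^ n)⁻¹) ^ 2) := by
    refine le_trans (le_of_eq ?_) (h1.trans (le_of_eq ?_))
    · ring
    · field_simp
  exact le_of_mul_le_mul_right h3 (by positivity)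

end Pool.Agent.U121.LC2
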