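import Pool.Agent.U121.LC.Radius

/-!
U121/LC2 (helper121, MP_0430e4_lc): characters of `F₂ⁿ` and the translates of a set by the words of a
code.
-/

set_option autoImplicit false
set_option linter.unusedSectionVars false

namespace Pool.Agent.U121.LC2

open Finset Pool.Agent.U121.LC

/-- the sign of an element of `F₂` -/
def sg (z : ZMod 2) : ℝ := if z = 0 then 1 else -1

lemma sg_zero : sg 0 = 1 := by simp [sg]

lemma sg_one : sg 1 = -1 := by simp [sg]

lemma zmod2 (z : ZMod 2) : z = 0 ∨ z = 1 := by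
  fin_cases z
  · left; rfl
  · right; rfl

lemma sg_add (a b : ZMod 2) : sg (a + b) = sg a * sg b := by
  have h11 : (1 : ZMod 2) + 1 = 0 := by decide
  rcases zmod2 a with rfl | rfl <;> rcases zmod2 b with rfl | rfl
  · rw [add_zero, sg_zero, one_mul]
  · rw [zero_add, sg_zero, one_mul]
  · rw [add_zero, sg_zero, mul_one]
  · rw [h11, sg_zero, sg_one]; norm_num

lemma sg_sq (a : ZMod 2) : sg a * sg a = 1 := by
  rcases zmod2 a with rfl | rfl
  · rw [sg_zero]; norm_num
  · rw [sg_one]; norm_num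

/-- the dot product -/
def dt {n : ℕ} (w x : Fin n → ZMod 2) : ZMod 2 := ∑ i, w i * x i

lemma dt_add {n : ℕ} (w x y : Fin n → ZMod 2) : dt w (x + y) = dt w x + dt w y := by
  unfold dt
  rw [← sum_add_distrib]
  exact sum_congr rfl fun i _ => by rw [Pi.add_apply, mul_add]

lemma dt_comm {n : ℕ} (w x : Fin n → ZMod 2) : dt w x = dt x w := by
  unfold dt
  exact sum_congr rfl fun i _ => mul_comm _ _

lemma add_dt {n : ℕ} (w w' x : Fin n → ZMod 2) : dt (w + w') x = dt w x + dt w' x := by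
  rw [dt_comm, dt_add, dt_comm x, dt_comm x]

lemma sum_sg {n : ℕ} (w : Fin n → ZMod 2) :
    ∑ x : Fin n → ZMod 2, sg (dt w x) = if w = 0 then (2 : ℝ) ^ n else 0 := by
  classical
  split_ifs with h
  · subst h
    have : ∀ x : Fin n → ZMod 2, sg (dt 0 x) = 1 := by
      intro x
      unfold dt
      simp [sg_zero]
    rw [sum_congr rfl fun x _ => this x, sum_const, nsmul_eq_mul, mul_one, card_univ,
      Fintype.card_fun, ZMod.card, Fintype.card_fin]
    push_cast
    rfl
  · obtain ⟨i, hi⟩ : ∃ i, w i ≠ 0 := by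
      by_contra hc
      push Not at hc
      exact h (funext hc)
    have hi1 : w i = 1 := (zmod2 (w i)).resolve_left hi
    have h1 : ∑ x : Fin n → ZMod 2, sg (dt w x) =
        ∑ x : Fin n → ZMod 2, sg (dt w (x + Pi.single i 1)) :=
      (Equiv.sum_comp (Equiv.addRight (Pi.single i 1)) fun x => sg (dt w x)).symm
    have h2 : dt w (Pi.single i 1) = 1 := by
      unfold dt
      rw [sum_eq_single i]
      · rw [Pi.single_eq_same, mul_one, hi1]
      · intro j _ hj
        rw [Pi.single_eq_of_ne hj, mul_zero]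
      · intro h'
        exact absurd (mem_univ i) h'
    have h3 : ∀ x : Fin n → ZMod 2, sg (dt w (x + Pi.single i 1)) = - sg (dt w x) := by
      intro x
      rw [dt_add, sg_add, h2, sg_one]
      ring
    rw [sum_congr rfl fun x _ => h3 x, sum_neg_distrib] at h1
    linarith

lemma sum_sg' {n : ℕ} (x : Fin n → ZMod 2) :
    ∑ w : Fin n → ZMod 2, sg (dt w x) = if x = 0 then (2 : ℝ) ^ n else 0 := by
  rw [← sum_sg x]
  exact sum_congr rfl fun w _ => by rw [dt_comm]

lemma add_self_iff {n : ℕ} (x y : Fin n → ZMod 2) : x + y = 0 ↔ x = y := by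
  constructor
  · intro h
    funext i
    have h1 := congrFun h i
    rw [Pi.add_apply, Pi.zero_apply] at h1
    rcases zmod2 (x i) with h2 | h2 <;> rcases zmod2 (y i) with h3 | h3 <;> rw [h2, h3] at h1 ⊢
    · exact absurd h1 (by decide)
    · exact absurd h1 (by decide)
  · rintro rfl
    funext i
    rw [Pi.add_apply, Pi.zero_apply]
    rcases zmod2 (x i) with h2 | h2 <;> rw [h2] <;> decide

/-- Fourier transform -/
noncomputable def hat {n : ℕ} (N : (Fin n → ZMod 2) → ℝ) (w : Fin n → ZMod 2) : ℝ :=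
  ∑ x, N x * sg (dt w x)

lemma sum_hat_sq {n : ℕ} (N : (Fin n → ZMod 2) → ℝ) :
    ∑ w, hat N w ^ 2 = 2 ^ n * ∑ x, N x ^ 2 := by
  classical
  have h1 : ∀ w, hat N w ^ 2 = ∑ x, ∑ y, N x * N y * sg (dt w (x + y)) := by
    intro w
    unfold hat
    rw [sq, sum_mul_sum]
    refine sum_congr rfl fun x _ => sum_congr rfl fun y _ => ?_
    rw [dt_add, sg_add]
    ring
  rw [sum_congr rfl fun w _ => h1 w, sum_comm]
  have h2 : ∀ x, ∑ w, ∑ y, N x * N y * sg (dt w (x + y)) = 2 ^ n * N x ^ 2 := by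
    intro x
    rw [sum_comm, sum_eq_single x]
    · rw [← mul_sum, sum_sg', if_pos ((add_self_iff x x).2 rfl)]
      ring
    · intro y _ hy
      rw [← mul_sum, sum_sg', if_neg (fun h => hy ((add_self_iff x y).1 h).symm), mul_zero]
    · intro h
      exact absurd (mem_univ x) h
  rw [sum_congr rfl fun x _ => h2 x, ← mul_sum]

/-- **Parseval for the frequencies outside of a set.** -/
theorem parseval {n : ℕ} (N : (Fin n → ZMod 2) → ℝ) (S : Finset (Fin n → ZMod 2)) :
    ∑ x, (N x - (2 ^ n)⁻¹ * ∑ w ∈ S, sg (dt w x) * hat N w) ^ 2 =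
      (2 ^ n)⁻¹ * ∑ w ∈ univ.filter (fun w => w ∉ S), hat N w ^ 2 := by
  classical
  have hp : (0 : ℝ) < 2 ^ n := by positivity
  obtain ⟨h, hh⟩ : ∃ h : (Fin n → ZMod 2) → ℝ,
    h = fun x => ∑ w ∈ S, sg (dt w x) * hat N w := ⟨_, rfl⟩
  have e1 : ∑ x, N x ^ 2 = (2 ^ n)⁻¹ * ∑ w, hat N w ^ 2 := by
    rw [sum_hat_sq, ← mul_assoc, inv_mul_cancel₀ hp.ne', one_mul]
  have e2 : ∑ x, N x * h x = ∑ w ∈ S, hat N w ^ 2 := by
    rw [hh]
    simp only [mul_sum]
    rw [sum_comm]
    refine sum_congr rfl fun w _ => ?_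
    have : ∀ x, N x * (sg (dt w x) * hat N w) = (N x * sg (dt w x)) * hat N w := fun x => by ring
    rw [sum_congr rfl fun x _ => this x, ← sum_mul, sq]
    rfl
  have e3 : ∑ x, h x ^ 2 = 2 ^ n * ∑ w ∈ S, hat N w ^ 2 := by
    rw [hh]
    simp only [sq, sum_mul_sum]
    rw [sum_comm, mul_sum]
    refine sum_congr rfl fun w hw => ?_
    rw [sum_comm, sum_eq_single w]
    · have : ∀ x, sg (dt w x) * hat N w * (sg (dt w x) * hat N w) = hat N w * hat N w := by
        intro x
        calc _ = (sg (dt w x) * sg (dt w x)) * (hat N w * hat N w) := by ring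
          _ = _ := by rw [sg_sq, one_mul]
      rw [sum_congr rfl fun x _ => this x, sum_const, nsmul_eq_mul, card_univ, Fintype.card_fun,
        ZMod.card, Fintype.card_fin]
      push_cast
      rfl
    · intro w' _ hw'
      have : ∀ x, sg (dt w x) * hat N w * (sg (dt w' x) * hat N w') =
          hat N w * hat N w' * sg (dt (w + w') x) := by
        intro x
        rw [add_dt, sg_add]
        ring
      rw [sum_congr rfl fun x _ => this x, ← mul_sum, sum_sg,
        if_neg (fun h => hw' ((add_self_iff w w').1 h).symm), mul_zero]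
    · intro h'
      exact absurd hw h'
  have e4 : ∑ x, (N x - (2 ^ n)⁻¹ * h x) ^ 2 = ∑ x, N x ^ 2 - 2 * (2 ^ n)⁻¹ * ∑ x, N x * h x +
      ((2 : ℝ) ^ n)⁻¹ ^ 2 * ∑ x, h x ^ 2 := by
    rw [mul_sum, mul_sum, ← sum_sub_distrib, ← sum_add_distrib]
    exact sum_congr rfl fun x _ => by ring
  have e5 : ∑ w, hat N w ^ 2 = ∑ w ∈ S, hat N w ^ 2 +
      ∑ w ∈ univ.filter (fun w => w ∉ S), hat N w ^ 2 := by
    rw [← sum_filter_add_sum_filter_not univ (fun w => w ∈ S)]
    congr 1
    refine sum_congr ?_ fun _ _ => rfl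
    ext w
    simp
  have e6 : ∀ x, (2 ^ n)⁻¹ * ∑ w ∈ S, sg (dt w x) * hat N w = (2 ^ n)⁻¹ * h x := by
    intro x
    rw [hh]
  rw [sum_congr rfl fun x _ => by rw [e6 x], e4, e1, e2, e3, e5]
  field_simp
  ring

/-- the transform of a set -/
noncomputable def KK {n : ℕ} (B : Finset (Fin n → ZMod 2)) (w : Fin n → ZMod 2) : ℝ :=
  ∑ b ∈ B, sg (dt w b)

lemma sum_KK_sq {n : ℕ} (B : Finset (Fin n → ZMod 2)) :
    ∑ w, KK B w ^ 2 = 2 ^ n * B.card := by
  classical
  have h1 : ∀ w, KK B w = hat (fun x => if x ∈ B then (1 : ℝ) else 0) w := by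
    intro w
    unfold KK hat
    rw [← sum_filter_add_sum_filter_not univ (fun x => x ∈ B)]
    have e1 : ∑ x ∈ univ.filter (fun x => x ∉ B), (if x ∈ B then (1 : ℝ) else 0) *
        sg (dt w x) = 0 := by
      refine sum_eq_zero fun x hx => ?_
      rw [if_neg (mem_filter.1 hx).2, zero_mul]
    rw [e1, add_zero]
    refine sum_congr (by ext x; simp) fun x hx => ?_
    show sg (dt w x) = (if x ∈ B then (1 : ℝ) else 0) * sg (dt w x)
    rw [if_pos (mem_filter.1 hx).2, one_mul]
  rw [sum_congr rfl fun w _ => by rw [h1 w], sum_hat_sq]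
  congr 1
  have : ∀ x : Fin n → ZMod 2, (if x ∈ B then (1 : ℝ) else 0) ^ 2 = if x ∈ B then 1 else 0 := by
    intro x
    split_ifs <;> norm_num
  rw [sum_congr rfl fun x _ => this x, sum_boole]
  congr 1
  congr 1
  ext x
  simp

/-- the words orthogonal to the generators -/
def DD {n k : ℕ} (G : Fin k → (Fin n → ZMod 2)) : Finset (Fin n → ZMod 2) :=
  univ.filter fun w => ∀ j, dt w (G j) = 0

lemma dt_ev {n k : ℕ} (w : Fin n → ZMod 2) (G : Fin k → (Fin n → ZMod 2)) (u : Fin k → ZMod 2) :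
    dt w (ev G u) = dt (fun j => dt w (G j)) u := by
  rw [ev_apply]
  unfold dt
  simp only [Finset.sum_apply, Pi.smul_apply, smul_eq_mul, mul_sum, sum_mul]
  rw [sum_comm]
  exact sum_congr rfl fun j _ => sum_congr rfl fun i _ => by ring

lemma hat_XX {n k : ℕ} (G : Fin k → (Fin n → ZMod 2)) (B : Finset (Fin n → ZMod 2))
    (w : Fin n → ZMod 2) : hat (fun x => (XX G B x : ℝ)) w =
      if w ∈ DD G then (2 : ℝ) ^ k * KK B w else 0 := by
  classical
  have h1 : hat (fun x => (XX G B x : ℝ)) w = KK B w * ∑ u, sg (dt w (ev G u)) := by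
    unfold hat XX KK
    simp only [card_filter]
    push_cast
    simp only [sum_mul, mul_sum]
    rw [sum_comm]
    refine sum_congr rfl fun u _ => ?_
    rw [← Equiv.sum_comp (Equiv.addLeft (ev G u)) fun x =>
      (if ev G u + x ∈ B then (1 : ℝ) else 0) * sg (dt w x)]
    have h2 : ∀ x : Fin n → ZMod 2, (if ev G u + (Equiv.addLeft (ev G u)) x ∈ B then (1 : ℝ)
        else 0) * sg (dt w ((Equiv.addLeft (ev G u)) x)) =
        if x ∈ B then sg (dt w x) * sg (dt w (ev G u)) else 0 := by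
      intro x
      have h3 : ev G u + (Equiv.addLeft (ev G u)) x = x := by
        show ev G u + (ev G u + x) = x
        rw [← add_assoc, (add_self_iff _ _).2 rfl, zero_add]
      have h4 : dt w ((Equiv.addLeft (ev G u)) x) = dt w x + dt w (ev G u) := by
        show dt w (ev G u + x) = _
        rw [dt_add, add_comm]
      rw [h3, h4, sg_add]
      split_ifs
      · rw [one_mul]
      · rw [zero_mul]
    rw [sum_congr rfl fun x _ => h2 x, ← sum_filter]
    refine sum_congr (by ext x; simp) fun x _ => ?_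
    ring
  rw [h1]
  have h2 : ∑ u, sg (dt w (ev G u)) = if w ∈ DD G then (2 : ℝ) ^ k else 0 := by
    rw [sum_congr rfl fun u _ => by rw [dt_ev w G u], sum_sg]
    by_cases h : w ∈ DD G
    · rw [if_pos h, if_pos]
      funext j
      exact (mem_filter.1 h).2 j
    · rw [if_neg h, if_neg]
      intro h'
      apply h
      exact mem_filter.2 ⟨mem_univ _, fun j => congrFun h' j⟩
  rw [h2]
  split_ifs
  · ring
  · ring

end Pool.Agent.U121.LC2
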