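import Pool.Agent.U121.LC2.Tuple

/-!
U121/LC2 (helper121, MP_0430e4_lc): generator matrices of codes with large minimum distance or
large covering radius, from a bound for the matrices which leave many words uncovered.
-/

set_option autoImplicit false
set_option linter.unusedSectionVars false

namespace Pool.Agent.U121.LC2

open Finset Pool.Agent.U121.LC

open Classical in
lemma split {n k₁ k₂ d : ℕ} (P : (Fin k₁ → (Fin n → ZMod 2)) → Prop) :
    (PP n (k₁ + k₂) d).card ≤
      ∑ G : Fin k₁ → (Fin n → ZMod 2),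
        (if P G then (Unc G d).card ^ k₂ else (2 ^ n) ^ k₂) := by
  have hcard : ∀ G : Fin k₁ → (Fin n → ZMod 2),
      (if P G then (Unc G d).card ^ k₂ else (2 ^ n) ^ k₂) =
      (if P G then Fintype.piFinset (fun _ : Fin k₂ => Unc G d)
        else univ : Finset (Fin k₂ → (Fin n → ZMod 2))).card := by
    intro G
    split_ifs with h
    · rw [Fintype.card_piFinset, Finset.prod_const, Finset.card_univ, Fintype.card_fin]
    · rw [Finset.card_univ, Fintype.card_fun, Fintype.card_fun, ZMod.card, Fintype.card_fin,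
        Fintype.card_fin]
  rw [Finset.sum_congr rfl (fun G _ => hcard G), ← Finset.card_sigma]
  refine Finset.card_le_card_of_injOn
    (fun G => ⟨fun i => G (Fin.castAdd k₂ i), fun j => G (Fin.natAdd k₁ j)⟩) ?_ ?_
  · intro G hG
    rw [Finset.mem_coe] at hG ⊢
    unfold PP at hG
    rw [Finset.mem_filter] at hG
    rw [Finset.mem_sigma]
    refine ⟨Finset.mem_univ _, ?_⟩
    show (fun j => G (Fin.natAdd k₁ j)) ∈ (if P (fun i => G (Fin.castAdd k₂ i))
      then Fintype.piFinset (fun _ : Fin k₂ => Unc (fun i => G (Fin.castAdd k₂ i)) d)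
        else univ)
    split_ifs with h
    · rw [Fintype.mem_piFinset]
      intro j
      unfold Unc
      rw [Finset.mem_filter]
      refine ⟨Finset.mem_univ _, fun u => ?_⟩
      have h1 := hG.2 (Fin.append u (Pi.single j 1)) (by
        intro h2
        have h3 := congrFun h2 (Fin.natAdd k₁ j)
        rw [Fin.append_right, Pi.single_eq_same, Pi.zero_apply] at h3
        exact one_ne_zero h3)
      have h4 : ev G (Fin.append u (Pi.single j 1)) =
          ev (fun i => G (Fin.castAdd k₂ i)) u + G (Fin.natAdd k₁ j) := by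
        rw [ev_apply, ev_apply, Fin.sum_univ_add]
        congr 1
        · refine Finset.sum_congr rfl fun i _ => ?_
          rw [Fin.append_left]
        · rw [Finset.sum_eq_single j]
          · rw [Fin.append_right, Pi.single_eq_same, one_smul]
          · intro l _ hl
            rw [Fin.append_right, Pi.single_eq_of_ne hl, zero_smul]
          · intro h
            exact absurd (Finset.mem_univ _) h
      rw [h4] at h1
      exact h1
    · exact Finset.mem_univ _
  · intro G _ G' _ hGG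
    have e1 : (fun i => G (Fin.castAdd k₂ i)) = (fun i => G' (Fin.castAdd k₂ i)) :=
      congrArg Sigma.fst hGG
    have e2 : (fun j => G (Fin.natAdd k₁ j)) = (fun j => G' (Fin.natAdd k₁ j)) := by
      have := hGG
      simp only [Sigma.mk.injEq] at this
      exact eq_of_heq this.2
    funext i
    refine Fin.addCases (fun i => ?_) (fun j => ?_) i
    · exact congrFun e1 i
    · exact congrFun e2 j

open Classical in
lemma split' {n k₁ k₂ d : ℕ} (P : (Fin k₁ → (Fin n → ZMod 2)) → Prop) :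
    (CC n (k₁ + k₂) d).card ≤
      ∑ G : Fin k₁ → (Fin n → ZMod 2),
        (if P G then 2 ^ n * (Unc G d).card ^ k₂ else (2 ^ n) ^ k₂) := by
  obtain ⟨F, hF⟩ : ∃ F : (Fin k₁ → (Fin n → ZMod 2)) → Finset (Fin k₂ → (Fin n → ZMod 2)),
    F = fun G => if P G then
      univ.biUnion (fun x : Fin n → ZMod 2 =>
        Fintype.piFinset (fun _ : Fin k₂ => univ.filter (fun y => y + x ∈ Unc G d)))
        else univ := ⟨_, rfl⟩
  have hcard : ∀ G : Fin k₁ → (Fin n → ZMod 2), (F G).card ≤
      (if P G then 2 ^ n * (Unc G d).card ^ k₂ else (2 ^ n) ^ k₂) := by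
    intro G
    rw [hF]
    show (if P G then
      univ.biUnion (fun x : Fin n → ZMod 2 =>
        Fintype.piFinset (fun _ : Fin k₂ => univ.filter (fun y => y + x ∈ Unc G d)))
        else univ).card ≤ _
    split_ifs with h
    · refine Finset.card_biUnion_le.trans ?_
      have h1 : ∀ x : Fin n → ZMod 2,
          (univ.filter (fun y => y + x ∈ Unc G d)).card ≤ (Unc G d).card := by
        intro x
        refine Finset.card_le_card_of_injOn (fun y => y + x) ?_ ?_
        · intro y hy
          exact (Finset.mem_filter.1 (Finset.mem_coe.1 hy)).2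
        · intro y _ y' _ h
          exact add_right_cancel h
      calc ∑ x : Fin n → ZMod 2, (Fintype.piFinset
            (fun _ : Fin k₂ => univ.filter (fun y => y + x ∈ Unc G d))).card ≤
            ∑ _x : Fin n → ZMod 2, (Unc G d).card ^ k₂ := by
            refine Finset.sum_le_sum fun x _ => ?_
            rw [Fintype.card_piFinset, Finset.prod_const, Finset.card_univ, Fintype.card_fin]
            exact Nat.pow_le_pow_left (h1 x) k₂
        _ = _ := by
            rw [Finset.sum_const, Finset.card_univ, Fintype.card_fun, ZMod.card, Fintype.card_fin,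
              smul_eq_mul]
    · rw [Finset.card_univ, Fintype.card_fun, Fintype.card_fun, ZMod.card, Fintype.card_fin,
        Fintype.card_fin]
  refine le_trans ?_ (Finset.sum_le_sum fun G _ => hcard G)
  rw [← Finset.card_sigma]
  refine Finset.card_le_card_of_injOn
    (fun G => ⟨fun i => G (Fin.castAdd k₂ i), fun j => G (Fin.natAdd k₁ j)⟩) ?_ ?_
  · intro G hG
    rw [Finset.mem_coe] at hG ⊢
    unfold CC at hG
    rw [Finset.mem_filter] at hG
    rw [Finset.mem_sigma]
    refine ⟨Finset.mem_univ _, ?_⟩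
    rw [hF]
    show (fun j => G (Fin.natAdd k₁ j)) ∈ (if P (fun i => G (Fin.castAdd k₂ i))
      then univ.biUnion (fun x : Fin n → ZMod 2 =>
        Fintype.piFinset (fun _ : Fin k₂ => univ.filter (fun y => y + x ∈
          Unc (fun i => G (Fin.castAdd k₂ i)) d)))
        else univ)
    split_ifs with h
    · obtain ⟨_, x, hx⟩ := hG
      refine Finset.mem_biUnion.2 ⟨x, Finset.mem_univ _, ?_⟩
      rw [Fintype.mem_piFinset]
      intro j
      rw [Finset.mem_filter]
      refine ⟨Finset.mem_univ _, ?_⟩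
      unfold Unc
      rw [Finset.mem_filter]
      refine ⟨Finset.mem_univ _, fun u => ?_⟩
      have h1 := hx (Fin.append u (Pi.single j 1))
      have h4 : ev G (Fin.append u (Pi.single j 1)) =
          ev (fun i => G (Fin.castAdd k₂ i)) u + G (Fin.natAdd k₁ j) := by
        rw [ev_apply, ev_apply, Fin.sum_univ_add]
        congr 1
        · refine Finset.sum_congr rfl fun i _ => ?_
          rw [Fin.append_left]
        · rw [Finset.sum_eq_single j]
          · rw [Fin.append_right, Pi.single_eq_same, one_smul]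
          · intro l _ hl
            rw [Fin.append_right, Pi.single_eq_of_ne hl, zero_smul]
          · intro h
            exact absurd (Finset.mem_univ _) h
      rw [h4, add_assoc] at h1
      exact h1
    · exact Finset.mem_univ _
  · intro G _ G' _ hGG
    have e1 : (fun i => G (Fin.castAdd k₂ i)) = (fun i => G' (Fin.castAdd k₂ i)) :=
      congrArg Sigma.fst hGG
    have e2 : (fun j => G (Fin.natAdd k₁ j)) = (fun j => G' (Fin.natAdd k₁ j)) := by
      have := hGG
      simp only [Sigma.mk.injEq] at this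
      exact eq_of_heq this.2
    funext i
    refine Fin.addCases (fun i => ?_) (fun j => ?_) i
    · exact congrFun e1 i
    · exact congrFun e2 j

open Classical in
/-- matrices with few uncovered words, and the others -/
theorem PP_le {n k₁ k₂ d : ℕ} {τ β : ℝ} (hτ : 0 ≤ τ)
    (hβ : ((univ.filter fun G : Fin k₁ → (Fin n → ZMod 2) =>
      τ * 2 ^ n ≤ (Unc G d).card).card : ℝ) ≤ β * 2 ^ (n * k₁)) :
    ((PP n (k₁ + k₂) d).card : ℝ) ≤ (τ ^ k₂ + β) * 2 ^ (n * (k₁ + k₂)) := by
  have h1 : ((PP n (k₁ + k₂) d).card : ℝ) ≤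
      ∑ G : Fin k₁ → (Fin n → ZMod 2),
        (if ¬ τ * 2 ^ n ≤ (Unc G d).card then ((Unc G d).card : ℝ) ^ k₂ else ((2 : ℝ) ^ n) ^ k₂) := by
    have := split (n := n) (k₁ := k₁) (k₂ := k₂) (d := d)
      (fun G => ¬ τ * 2 ^ n ≤ ((Unc G d).card : ℝ))
    exact_mod_cast this
  have h2 : ∑ G : Fin k₁ → (Fin n → ZMod 2),
        (if ¬ τ * 2 ^ n ≤ (Unc G d).card then ((Unc G d).card : ℝ) ^ k₂ else ((2 : ℝ) ^ n) ^ k₂) ≤
      ∑ G : Fin k₁ → (Fin n → ZMod 2), ((τ * 2 ^ n) ^ k₂ +
        (if τ * 2 ^ n ≤ (Unc G d).card then ((2 : ℝ) ^ n) ^ k₂ else 0)) := by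
    refine sum_le_sum fun G _ => ?_
    by_cases h : τ * 2 ^ n ≤ (Unc G d).card
    · rw [if_neg (not_not.2 h), if_pos h]
      have : (0 : ℝ) ≤ (τ * 2 ^ n) ^ k₂ := by positivity
      linarith
    · rw [if_pos h, if_neg h, add_zero]
      push Not at h
      exact pow_le_pow_left₀ (by positivity) h.le k₂
  refine h1.trans (h2.trans ?_)
  rw [sum_add_distrib, sum_const, nsmul_eq_mul, ← sum_filter, sum_const, nsmul_eq_mul]
  have h3 : ((univ : Finset (Fin k₁ → (Fin n → ZMod 2))).card : ℝ) = 2 ^ (n * k₁) := by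
    rw [card_univ, Fintype.card_fun, Fintype.card_fun, ZMod.card, Fintype.card_fin,
      Fintype.card_fin]
    push_cast
    rw [pow_mul]
  rw [h3]
  have h6 : (2 : ℝ) ^ (n * (k₁ + k₂)) = 2 ^ (n * k₁) * (2 ^ n) ^ k₂ := by
    rw [mul_add, pow_add, pow_mul 2 n k₂]
  rw [h6]
  have h7 := mul_le_mul_of_nonneg_right hβ (show (0 : ℝ) ≤ ((2 : ℝ) ^ n) ^ k₂ by positivity)
  calc _ ≤ (2 : ℝ) ^ (n * k₁) * (τ * 2 ^ n) ^ k₂ + β * 2 ^ (n * k₁) * ((2 : ℝ) ^ n) ^ k₂ := by
        linarith
    _ = _ := by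
        rw [mul_pow]
        ring

open Classical in
/-- the same for the covering radius -/
theorem CC_le {n k₁ k₂ d : ℕ} {τ β : ℝ} (hτ : 0 ≤ τ)
    (hβ : ((univ.filter fun G : Fin k₁ → (Fin n → ZMod 2) =>
      τ * 2 ^ n ≤ (Unc G d).card).card : ℝ) ≤ β * 2 ^ (n * k₁)) :
    ((CC n (k₁ + k₂) d).card : ℝ) ≤ (2 ^ n * τ ^ k₂ + β) * 2 ^ (n * (k₁ + k₂)) := by
  have h1 : ((CC n (k₁ + k₂) d).card : ℝ) ≤
      ∑ G : Fin k₁ → (Fin n → ZMod 2),
        (if ¬ τ * 2 ^ n ≤ (Unc G d).card then 2 ^ n * ((Unc G d).card : ℝ) ^ k₂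
          else ((2 : ℝ) ^ n) ^ k₂) := by
    have := split' (n := n) (k₁ := k₁) (k₂ := k₂) (d := d)
      (fun G => ¬ τ * 2 ^ n ≤ ((Unc G d).card : ℝ))
    exact_mod_cast this
  have h2 : ∑ G : Fin k₁ → (Fin n → ZMod 2),
        (if ¬ τ * 2 ^ n ≤ (Unc G d).card then 2 ^ n * ((Unc G d).card : ℝ) ^ k₂
          else ((2 : ℝ) ^ n) ^ k₂) ≤
      ∑ G : Fin k₁ → (Fin n → ZMod 2), (2 ^ n * (τ * 2 ^ n) ^ k₂ +
        (if τ * 2 ^ n ≤ (Unc G d).card then ((2 : ℝ) ^ n) ^ k₂ else 0)) := by
    refine sum_le_sum fun G _ => ?_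
    by_cases h : τ * 2 ^ n ≤ (Unc G d).card
    · rw [if_neg (not_not.2 h), if_pos h]
      have : (0 : ℝ) ≤ 2 ^ n * (τ * 2 ^ n) ^ k₂ := by positivity
      linarith
    · rw [if_pos h, if_neg h, add_zero]
      push Not at h
      exact mul_le_mul_of_nonneg_left (pow_le_pow_left₀ (by positivity) h.le k₂) (by positivity)
  refine h1.trans (h2.trans ?_)
  rw [sum_add_distrib, sum_const, nsmul_eq_mul, ← sum_filter, sum_const, nsmul_eq_mul]
  have h3 : ((univ : Finset (Fin k₁ → (Fin n → ZMod 2))).card : ℝ) = 2 ^ (n * k₁) := by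
    rw [card_univ, Fintype.card_fun, Fintype.card_fun, ZMod.card, Fintype.card_fin,
      Fintype.card_fin]
    push_cast
    rw [pow_mul]
  rw [h3]
  have h6 : (2 : ℝ) ^ (n * (k₁ + k₂)) = 2 ^ (n * k₁) * (2 ^ n) ^ k₂ := by
    rw [mul_add, pow_add, pow_mul 2 n k₂]
  rw [h6]
  have h7 := mul_le_mul_of_nonneg_right hβ (show (0 : ℝ) ≤ ((2 : ℝ) ^ n) ^ k₂ by positivity)
  calc _ ≤ (2 : ℝ) ^ (n * k₁) * (2 ^ n * (τ * 2 ^ n) ^ k₂) +
        β * 2 ^ (n * k₁) * ((2 : ℝ) ^ n) ^ k₂ := by
        linarith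
    _ = _ := by
        rw [mul_pow]
        ring

end Pool.Agent.U121.LC2
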