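import Pool.Agent.U121.LC2.Cheb

/-!
U121/LC2 (helper121, MP_0430e4_lc): the number of generator matrices of codes which leave many words
uncovered, by counting independent tuples of words of the dual code.
-/

set_option autoImplicit false
set_option linter.unusedSectionVars false

namespace Pool.Agent.U121.LC2

open Finset Pool.Agent.U121.LC

open scoped Classical

/-- independent tuples of words of the dual code -/
noncomputable def TT {n k : ℕ} (r : ℕ) (G : Fin k → (Fin n → ZMod 2)) :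
    Finset (Fin r → (Fin n → ZMod 2)) :=
  univ.filter fun W => LinearIndependent (ZMod 2) W ∧ ∀ l, W l ∈ DD G

lemma ball_mono {n a b : ℕ} (h : a ≤ b) : (ball n a).card ≤ (ball n b).card := by
  apply card_le_card
  intro x hx
  unfold ball at hx ⊢
  rw [mem_filter] at hx ⊢
  exact ⟨hx.1, hx.2.trans h⟩

/-- the sum over the longer tuples -/
lemma step {n k m : ℕ} (G : Fin k → (Fin n → ZMod 2)) (f : (Fin n → ZMod 2) → ℝ)
    (hf : ∀ w, 0 ≤ f w) :
    ∑ W ∈ TT m G, (∏ l, f (W l)) *
      ∑ w ∈ (DD G).filter (fun w => w ∉ Submodule.span (ZMod 2) (Set.range W)), f w ≤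
      ∑ W ∈ TT (m + 1) G, ∏ l, f (W l) := by
  obtain ⟨F, hF⟩ : ∃ F : (Fin m → (Fin n → ZMod 2)) → Finset (Fin n → ZMod 2),
    F = fun W => (DD G).filter (fun w => w ∉ Submodule.span (ZMod 2) (Set.range W)) := ⟨_, rfl⟩
  have h1 : ∑ W ∈ TT m G, (∏ l, f (W l)) * ∑ w ∈ F W, f w =
      ∑ p ∈ (TT m G).sigma F, ∏ l, f ((Fin.snoc p.1 p.2 : Fin (m + 1) → (Fin n → ZMod 2)) l) := by
    rw [sum_sigma]
    refine sum_congr rfl fun W _ => ?_
    rw [mul_sum]
    refine sum_congr rfl fun w _ => ?_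
    rw [Fin.prod_univ_castSucc]
    simp only [Fin.snoc_castSucc, Fin.snoc_last]
  have h2 : ∑ p ∈ (TT m G).sigma F,
      ∏ l, f ((Fin.snoc p.1 p.2 : Fin (m + 1) → (Fin n → ZMod 2)) l) =
      ∑ W ∈ ((TT m G).sigma F).image (fun p =>
        (Fin.snoc p.1 p.2 : Fin (m + 1) → (Fin n → ZMod 2))), ∏ l, f (W l) := by
    rw [sum_image]
    rintro ⟨W, w⟩ _ ⟨W', w'⟩ _ h
    have e1 : W = W' := by
      funext l
      have := congrFun h (Fin.castSucc l)
      simpa only [Fin.snoc_castSucc] using this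
    have e2 : w = w' := by
      have := congrFun h (Fin.last m)
      simpa only [Fin.snoc_last] using this
    rw [e1, e2]
  have h3 : ((TT m G).sigma F).image (fun p =>
        (Fin.snoc p.1 p.2 : Fin (m + 1) → (Fin n → ZMod 2))) ⊆ TT (m + 1) G := by
    intro q hq
    rw [mem_image] at hq
    obtain ⟨⟨W, w⟩, hp, rfl⟩ := hq
    rw [mem_sigma] at hp
    obtain ⟨hp1, hp2⟩ := hp
    rw [hF] at hp2
    have hp1' : W ∈ TT m G := hp1
    have hp2' : w ∈ (DD G).filter (fun w => w ∉ Submodule.span (ZMod 2) (Set.range W)) := hp2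
    unfold TT at hp1' ⊢
    rw [mem_filter] at hp1' hp2' ⊢
    refine ⟨mem_univ _, ?_, ?_⟩
    · exact linearIndependent_finSnoc.2 ⟨hp1'.2.1, hp2'.2⟩
    · intro l
      refine Fin.lastCases ?_ (fun l => ?_) l
      · show (Fin.snoc W w : Fin (m + 1) → (Fin n → ZMod 2)) (Fin.last m) ∈ DD G
        rw [Fin.snoc_last]
        exact hp2'.1
      · show (Fin.snoc W w : Fin (m + 1) → (Fin n → ZMod 2)) (Fin.castSucc l) ∈ DD G
        rw [Fin.snoc_castSucc]
        exact hp1'.2.2 l
  have h4 : ∑ W ∈ TT m G, (∏ l, f (W l)) * ∑ w ∈ F W, f w ≤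
      ∑ W ∈ TT (m + 1) G, ∏ l, f (W l) := by
    rw [h1, h2]
    exact sum_le_sum_of_subset_of_nonneg h3 fun W _ _ => prod_nonneg fun l _ => hf _
  rw [hF] at h4
  exact h4

/-- **Many uncovered words give many independent tuples of dual words.** -/
theorem chain {n k r t : ℕ} (hr : r ≤ t) {τ : ℝ} (hτ : 0 ≤ τ) (G : Fin k → (Fin n → ZMod 2))
    (hG : τ * 2 ^ n ≤ (Unc G (t + 1)).card) : ∀ m : ℕ, m ≤ r →
    (τ * ((ball n (t - r)).card : ℝ) ^ 2) ^ m ≤ ∑ W ∈ TT m G, ∏ l, KK (ball n t) (W l) ^ 2 := by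
  intro m
  induction m with
  | zero =>
    intro _
    have h1 : (fun _ => 0 : Fin 0 → (Fin n → ZMod 2)) ∈ TT 0 G := by
      unfold TT
      rw [mem_filter]
      exact ⟨mem_univ _, linearIndependent_empty_type, fun l => l.elim0⟩
    calc (τ * ((ball n (t - r)).card : ℝ) ^ 2) ^ 0 = ∏ l : Fin 0, KK (ball n t)
          ((fun _ => 0 : Fin 0 → (Fin n → ZMod 2)) l) ^ 2 := by
          rw [pow_zero, Fin.prod_univ_zero]
      _ ≤ _ := single_le_sum (f := fun W : Fin 0 → (Fin n → ZMod 2) =>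
          ∏ l : Fin 0, KK (ball n t) (W l) ^ 2) (fun W _ => prod_nonneg fun l _ => sq_nonneg _) h1
  | succ m ih =>
    intro hm
    have h1 := ih (by omega)
    refine le_trans ?_ (step G (fun w => KK (ball n t) w ^ 2) fun w => sq_nonneg _)
    rw [pow_succ]
    refine (mul_le_mul_of_nonneg_right h1 (by positivity)).trans ?_
    rw [sum_mul]
    refine sum_le_sum fun W hW => ?_
    apply mul_le_mul_of_nonneg_left _ (prod_nonneg fun l _ => sq_nonneg _)
    unfold TT at hW
    rw [mem_filter] at hW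
    have h2 := cheb (r := m) (t := t) (by omega) G W hW.2.1 hW.2.2
    have h3 : ((ball n (t - r)).card : ℝ) ^ 2 ≤ ((ball n (t - m)).card : ℝ) ^ 2 := by
      apply pow_le_pow_left₀ (by positivity)
      exact_mod_cast ball_mono (show t - r ≤ t - m by omega)
    have hp : (0 : ℝ) < 2 ^ n := by positivity
    have h4 : 2 ^ n * (τ * ((ball n (t - r)).card : ℝ) ^ 2) ≤ 2 ^ n *
        ∑ w ∈ (DD G).filter (fun w => w ∉ Submodule.span (ZMod 2) (Set.range W)),
        KK (ball n t) w ^ 2 := by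
      refine le_trans ?_ h2
      calc 2 ^ n * (τ * ((ball n (t - r)).card : ℝ) ^ 2) =
            (τ * 2 ^ n) * ((ball n (t - r)).card : ℝ) ^ 2 := by ring
        _ ≤ _ := mul_le_mul hG h3 (by positivity) (by positivity)
    exact le_of_mul_le_mul_left h4 hp

/-- the words orthogonal to independent words -/
lemma card_orth {n r : ℕ} {W : Fin r → (Fin n → ZMod 2)} (hW : LinearIndependent (ZMod 2) W) :
    (2 : ℝ) ^ r * ((univ.filter fun x => ∀ l, dt (W l) x = 0).card : ℝ) = 2 ^ n := by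
  have h1 : ∑ x : Fin n → ZMod 2, ∑ a, sg (dt (ev W a) x) =
      (2 : ℝ) ^ r * ((univ.filter fun x => ∀ l, dt (W l) x = 0).card : ℝ) := by
    have h2 : ∀ x : Fin n → ZMod 2, ∑ a, sg (dt (ev W a) x) =
        if (∀ l, dt (W l) x = 0) then (2 : ℝ) ^ r else 0 := by
      intro x
      rw [sum_congr rfl fun a _ => by rw [dt_comm, dt_ev], sum_sg]
      by_cases h : ∀ l, dt (W l) x = 0
      · rw [if_pos h, if_pos]
        funext l
        rw [dt_comm]
        exact h l
      · rw [if_neg h, if_neg]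
        intro h'
        apply h
        intro l
        rw [dt_comm]
        exact congrFun h' l
    rw [sum_congr rfl fun x _ => h2 x, ← sum_filter, sum_const, nsmul_eq_mul, mul_comm]
  rw [← h1, sum_comm, sum_congr rfl fun a _ => sum_sg (ev W a), sum_eq_single 0]
  · rw [if_pos]
    rw [map_zero]
  · intro a _ ha
    rw [if_neg]
    intro h
    apply ha
    apply ev_inj hW
    show ev W a = ev W 0
    rw [h, map_zero]
  · intro h
    exact absurd (mem_univ _) h

/-- the matrices whose rows are orthogonal to independent words -/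
lemma card_mat {n r : ℕ} (k : ℕ) {W : Fin r → (Fin n → ZMod 2)}
    (hW : LinearIndependent (ZMod 2) W) :
    ((univ.filter fun G : Fin k → (Fin n → ZMod 2) => ∀ l, W l ∈ DD G).card : ℝ) *
      2 ^ (r * k) = 2 ^ (n * k) := by
  have h1 : (univ.filter fun G : Fin k → (Fin n → ZMod 2) => ∀ l, W l ∈ DD G) =
      Fintype.piFinset fun _ : Fin k => univ.filter fun x => ∀ l, dt (W l) x = 0 := by
    ext G
    rw [mem_filter, Fintype.mem_piFinset]
    constructor
    · rintro ⟨_, h⟩ j
      rw [mem_filter]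
      refine ⟨mem_univ _, fun l => ?_⟩
      have := h l
      unfold DD at this
      exact (mem_filter.1 this).2 j
    · intro h
      refine ⟨mem_univ _, fun l => ?_⟩
      unfold DD
      rw [mem_filter]
      exact ⟨mem_univ _, fun j => (mem_filter.1 (h j)).2 l⟩
  rw [h1, Fintype.card_piFinset, prod_const, card_univ, Fintype.card_fin, Nat.cast_pow,
    pow_mul 2 r k, pow_mul 2 n k, ← mul_pow, ← card_orth hW, mul_comm]

/-- **The number of codes with many uncovered words.** -/
theorem bad_le {n k r t : ℕ} (hr : r ≤ t) {τ : ℝ} (hτ : 0 ≤ τ) :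
    ((univ.filter fun G : Fin k → (Fin n → ZMod 2) =>
      τ * 2 ^ n ≤ (Unc G (t + 1)).card).card : ℝ) *
      (τ * ((ball n (t - r)).card : ℝ) ^ 2) ^ r * 2 ^ (r * k) ≤
      (2 ^ n * (ball n t).card) ^ r * 2 ^ (n * k) := by
  obtain ⟨f, hf⟩ : ∃ f : (Fin n → ZMod 2) → ℝ, f = fun w => KK (ball n t) w ^ 2 := ⟨_, rfl⟩
  have hf0 : ∀ w, 0 ≤ f w := by
    intro w
    rw [hf]
    exact sq_nonneg _
  have h1 : ((univ.filter fun G : Fin k → (Fin n → ZMod 2) =>
      τ * 2 ^ n ≤ (Unc G (t + 1)).card).card : ℝ) *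
      (τ * ((ball n (t - r)).card : ℝ) ^ 2) ^ r ≤
      ∑ G : Fin k → (Fin n → ZMod 2), ∑ W ∈ TT r G, ∏ l, f (W l) := by
    rw [← nsmul_eq_mul, ← sum_const]
    refine le_trans (sum_le_sum fun G hG => ?_)
      (sum_le_sum_of_subset_of_nonneg (subset_univ (univ.filter fun G : Fin k →
        (Fin n → ZMod 2) => τ * 2 ^ n ≤ (Unc G (t + 1)).card))
        fun G _ _ => sum_nonneg fun W _ => prod_nonneg fun l _ => hf0 _)
    rw [hf]
    exact chain hr hτ G (mem_filter.1 hG).2 r le_rfl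
  have h2 : ∑ G : Fin k → (Fin n → ZMod 2), ∑ W ∈ TT r G, ∏ l, f (W l) =
      ∑ W : Fin r → (Fin n → ZMod 2), if LinearIndependent (ZMod 2) W then
        ((univ.filter fun G : Fin k → (Fin n → ZMod 2) => ∀ l, W l ∈ DD G).card : ℝ) *
          ∏ l, f (W l) else 0 := by
    have h3 : ∀ G : Fin k → (Fin n → ZMod 2), ∑ W ∈ TT r G, ∏ l, f (W l) =
        ∑ W : Fin r → (Fin n → ZMod 2), if LinearIndependent (ZMod 2) W ∧ ∀ l, W l ∈ DD G then
          ∏ l, f (W l) else 0 := by
      intro G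
      unfold TT
      rw [sum_filter]
    rw [sum_congr rfl fun G _ => h3 G, sum_comm]
    refine sum_congr rfl fun W _ => ?_
    by_cases hW : LinearIndependent (ZMod 2) W
    · rw [if_pos hW]
      simp only [hW, true_and]
      rw [← sum_filter, sum_const, nsmul_eq_mul]
    · rw [if_neg hW]
      simp only [hW, false_and, if_false, sum_const_zero]
  have h4 : (∑ G : Fin k → (Fin n → ZMod 2), ∑ W ∈ TT r G, ∏ l, f (W l)) * 2 ^ (r * k) ≤
      (2 ^ n * (ball n t).card) ^ r * 2 ^ (n * k) := by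
    rw [h2, sum_mul]
    have h5 : ((2 : ℝ) ^ n * (ball n t).card) ^ r = ∑ W : Fin r → (Fin n → ZMod 2),
        ∏ l, f (W l) := by
      rw [← Fintype.sum_pow, hf, sum_KK_sq]
    rw [h5, sum_mul]
    refine sum_le_sum fun W _ => ?_
    have h6 : 0 ≤ ∏ l, f (W l) := prod_nonneg fun l _ => hf0 _
    split_ifs with hW
    · have h7 := card_mat k hW
      refine le_of_eq ?_
      rw [← h7]
      ring
    · rw [zero_mul]
      positivity
  refine le_trans ?_ h4
  exact mul_le_mul_of_nonneg_right h1 (by positivity)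

end Pool.Agent.U121.LC2
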